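import Mathlib
import Pool.Agent.H191.DS.Main

/-!
# Symmetric real-rooted polynomials with increasing local extrema are dominated at `1`

Question 2: every monic `Q` with simple zeros in `[-1,1]`, symmetric about the origin, for which
the sequence `|Q(0)|, |Q(t₁)|, …, |Q(t_m)|, |Q(1)|` (`t_i` the critical points in `(0,1)`) is
increasing, satisfies `|Q(x+iy)| ≤ |Q(1+iy)|` for `-1 ≤ x ≤ 1` and all real `y`.
-/

namespace Pool.Agent.Results.MP_1c7d4c_an.MonotonePeaksDominated

open Finset Filter Topology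
open Pool.Agent.H191.DS

/-- The zeros `x 0 < ⋯ < x (n-1)` are simple, lie in `[-1,1]` and are symmetric about `0`. -/
structure Admissible {n : ℕ} (x : Fin n → ℝ) : Prop where
  strictMono : StrictMono x
  mem : ∀ j, x j ∈ Set.Icc (-1 : ℝ) 1
  symm : ∀ j, x j = -x (Fin.rev j)

/-- The monic polynomial with zeros `x j`, at a complex point. -/
noncomputable def Q {n : ℕ} (x : Fin n → ℝ) (z : ℂ) : ℂ := ∏ j, (z - (x j : ℂ))

/-- The same polynomial, as a real function. -/
noncomputable def Qreal {n : ℕ} (x : Fin n → ℝ) (t : ℝ) : ℝ := ∏ j, (t - x j)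

/-- The points `0`, `1` and the critical points of `Q` in `(0,1)`. -/
def nodes {n : ℕ} (x : Fin n → ℝ) : Set ℝ :=
  {t | t = 0 ∨ t = 1 ∨ (0 < t ∧ t < 1 ∧ deriv (Qreal x) t = 0)}

/-- Condition (b): `|Q(0)| ≤ |Q(t₁)| ≤ ⋯ ≤ |Q(t_m)| ≤ |Q(1)|`. -/
def CondB {n : ℕ} (x : Fin n → ℝ) : Prop := MonotoneOn (fun t => |Qreal x t|) (nodes x)

/-- Property (D). -/
def PropD {n : ℕ} (x : Fin n → ℝ) : Prop :=
  ∀ u : ℝ, -1 ≤ u → u ≤ 1 → ∀ y : ℝ, ‖Q x ⟨u, y⟩‖ ≤ ‖Q x ⟨1, y⟩‖

/-- The nonnegative representation of an admissible configuration. -/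
lemma exists_half {n : ℕ} (x : Fin n → ℝ) (hx : Admissible x) :
    ∃ (e m : ℕ) (a : Fin m → ℝ), e ≤ 1 ∧ StrictMono a ∧ (∀ k, 0 < a k) ∧ (∀ k, a k ≤ 1) ∧
      (∀ z : ℂ, Q x z = z ^ e * ∏ k, (z ^ 2 - ((a k ^ 2 : ℝ) : ℂ))) ∧
      (∀ t : ℝ, Qreal x t = t ^ e * ∏ k, (t ^ 2 - a k ^ 2)) := by
  obtain ⟨e, m, he, hn⟩ : ∃ e m : ℕ, e ≤ 1 ∧ n = m + (e + m) := by
    refine ⟨n % 2, n / 2, by omega, by omega⟩
  subst hn
  set up : Fin m → Fin (m + (e + m)) := fun k => Fin.natAdd m (Fin.natAdd e k) with hup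
  set mid : Fin e → Fin (m + (e + m)) := fun k => Fin.natAdd m (Fin.castAdd m k) with hmid
  have hrevup : ∀ k : Fin m, Fin.rev (up k) = Fin.castAdd (e + m) (Fin.rev k) := by
    intro k
    apply Fin.ext
    simp only [hup, Fin.val_rev, Fin.val_natAdd, Fin.val_castAdd]
    omega
  have hrevmid : ∀ k : Fin e, Fin.rev (mid k) = mid k := by
    intro k
    apply Fin.ext
    simp only [hmid, Fin.val_rev, Fin.val_natAdd, Fin.val_castAdd]
    have := k.2
    omega
  have hlow : ∀ k : Fin m, x (Fin.castAdd (e + m) (Fin.rev k)) = -x (up k) := by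
    intro k
    rw [← hrevup]
    have := hx.symm (up k)
    linarith
  have hmid0 : ∀ k : Fin e, x (mid k) = 0 := by
    intro k
    have := hx.symm (mid k)
    rw [hrevmid] at this
    linarith
  refine ⟨e, m, fun k => x (up k), he, ?_, ?_, ?_, ?_, ?_⟩
  · intro j k hjk
    apply hx.strictMono
    rw [Fin.lt_def]
    simp only [hup, Fin.val_natAdd]
    have : (j : ℕ) < k := hjk
    omega
  · intro k
    have h1 : x (Fin.rev (up k)) < x (up k) := by
      apply hx.strictMono
      rw [Fin.lt_def]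
      simp only [hup, Fin.val_rev, Fin.val_natAdd]
      have := k.2
      omega
    have h2 := hx.symm (up k)
    show 0 < x (up k)
    linarith
  · intro k
    exact (hx.mem (up k)).2
  · intro z
    unfold Q
    rw [Fin.prod_univ_add, Fin.prod_univ_add]
    have h1 : ∏ i : Fin m, (z - (x (Fin.castAdd (e + m) i) : ℂ)) =
        ∏ i : Fin m, (z + (x (up i) : ℂ)) := by
      rw [← Equiv.prod_comp Fin.revPerm (fun i => (z - (x (Fin.castAdd (e + m) i) : ℂ)))]
      apply Finset.prod_congr rfl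
      intro i _
      rw [Fin.revPerm_apply, hlow]
      push_cast; ring
    have h2 : ∏ i : Fin e, (z - (x (Fin.natAdd m (Fin.castAdd m i)) : ℂ)) = z ^ e := by
      rw [Finset.prod_congr rfl (g := fun _ => z)]
      · simp
      · intro i _
        have := hmid0 i
        simp only [hmid] at this
        rw [this]; simp
    rw [h1, h2, mul_left_comm, ← Finset.prod_mul_distrib]
    congr 1
    apply Finset.prod_congr rfl
    intro i _
    push_cast
    ring
  · intro t
    unfold Qreal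
    rw [Fin.prod_univ_add, Fin.prod_univ_add]
    have h1 : ∏ i : Fin m, (t - x (Fin.castAdd (e + m) i)) =
        ∏ i : Fin m, (t + x (up i)) := by
      rw [← Equiv.prod_comp Fin.revPerm (fun i => (t - x (Fin.castAdd (e + m) i)))]
      apply Finset.prod_congr rfl
      intro i _
      rw [Fin.revPerm_apply, hlow]
      ring
    have h2 : ∏ i : Fin e, (t - x (Fin.natAdd m (Fin.castAdd m i))) = t ^ e := by
      rw [Finset.prod_congr rfl (g := fun _ => t)]
      · simp
      · intro i _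
        have := hmid0 i
        simp only [hmid] at this
        rw [this]; simp
    rw [h1, h2, mul_left_comm, ← Finset.prod_mul_distrib]
    congr 1
    apply Finset.prod_congr rfl
    intro i _
    ring

/-- Class membership from (b). -/
lemma exists_cls {e m : ℕ} {a : Fin m → ℝ} (hm : 0 < m) (ha : StrictMono a)
    (ha0 : ∀ k, 0 < a k) (ha1 : ∀ k, a k ≤ 1)
    (hb : MonotoneOn (fun t => |Qf e (qS (fun k => a k ^ 2)) t|)
      {t | t = 0 ∨ t = 1 ∨ (0 < t ∧ t < 1 ∧ deriv (Qf e (qS (fun k => a k ^ 2))) t = 0)}) :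
    ∃ (μ : ℝ) (t : Fin m → ℝ), 0 < μ ∧ Cls e μ a t := by
  set q := qS (fun k => a k ^ 2) with hq
  have haj : ∀ j, a j ∈ Lj a j := fun j =>
    ⟨(ha0 j).le, fun k hk => (ha hk).le, le_rfl⟩
  -- maximisers
  have hmaxi : ∀ j, ∃ t', t' ∈ Lj a j ∧ ∀ x ∈ Lj a j, |Qf e q x| ≤ |Qf e q t'| := by
    intro j
    obtain ⟨t', ht', hmax⟩ := (isCompact_Lj a j).exists_isMaxOn ⟨a j, haj j⟩
      (continuous_abs.comp (continuous_Qf e q)).continuousOn
    exact ⟨t', ht', fun x hx => hmax hx⟩
  choose t ht hmax using hmaxi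
  have hne : ∀ j, Qf e q (t j) ≠ 0 := by
    intro j
    -- a point of the lobe where `Q ≠ 0`
    have h1 : ∀ᶠ x in 𝓝[<] (a j), 0 < x ∧ (∀ k, k < j → a k < x) ∧ x < a j := by
      have h2 : ∀ᶠ x in 𝓝[<] (a j), 0 < x :=
        (lt_mem_nhds (ha0 j)).filter_mono nhdsWithin_le_nhds
      have h3 : ∀ᶠ x in 𝓝[<] (a j), ∀ k, k < j → a k < x := by
        rw [eventually_all]
        intro k
        by_cases hk : k < j
        · filter_upwards [(lt_mem_nhds (ha hk)).filter_mono nhdsWithin_le_nhds] with x hx _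
          exact hx
        · filter_upwards with x h
          exact absurd h hk
      filter_upwards [h2, h3, self_mem_nhdsWithin] with x h4 h5 h6
      exact ⟨h4, h5, h6⟩
    obtain ⟨x, hx0, hx1, hx2⟩ := h1.exists
    have hxL : x ∈ Lj a j := ⟨hx0.le, fun k hk => (hx1 k hk).le, hx2.le⟩
    have hxne : Qf e q x ≠ 0 := by
      intro h0
      rw [hq, Qf_qS_eq_zero_iff (fun k => (ha0 k).le) hx0] at h0
      obtain ⟨k, hk⟩ := h0
      rcases lt_trichotomy k j with h' | h' | h'
      · have := hx1 k h'; linarith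
      · rw [h'] at hk; linarith
      · have := ha h'; linarith
    intro h0
    have h3 := hmax j x hxL
    rw [h0, abs_zero] at h3
    exact hxne (abs_nonpos_iff.1 h3)
  have hroot : ∀ k, q.eval (a k ^ 2) = 0 := by
    intro k
    rw [hq, eval_qS, Finset.prod_eq_zero (mem_univ k) (sub_self _)]
  have hta : ∀ j k, t j ≠ a k := by
    intro j k h0
    apply hne j
    rw [h0]
    unfold Qf
    rw [hroot, mul_zero]
  have hcrit : ∀ j, (DP e q).eval (t j ^ 2) = 0 := fun j =>
    crit_of_argmax (a := a) hroot (ht j) (hmax j) (hne j)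
  have ht1 : ∀ j, t j < 1 := fun j =>
    lt_of_lt_of_le (lt_of_le_of_ne (ht j).2.2 (hta j j)) (ha1 j)
  have hnode : ∀ j, t j ∈ ({t | t = 0 ∨ t = 1 ∨ (0 < t ∧ t < 1 ∧ deriv (Qf e q) t = 0)} :
      Set ℝ) := by
    intro j
    rcases (ht j).1.eq_or_lt with h | h
    · left; exact h.symm
    · right; right
      refine ⟨h, ht1 j, ?_⟩
      rw [(Qf_hasDerivAt e q (t j)).deriv]
      have h2 := x_mul_deriv e q (t j)
      rw [hcrit j, mul_zero] at h2
      rcases mul_eq_zero.1 h2 with h3 | h3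
      · exact absurd h3 h.ne'
      · exact h3
  have hone : (1 : ℝ) ∈ ({t | t = 0 ∨ t = 1 ∨ (0 < t ∧ t < 1 ∧ deriv (Qf e q) t = 0)} :
      Set ℝ) := Or.inr (Or.inl rfl)
  have hQ1 : 0 ≤ Qf e q 1 := by
    unfold Qf
    rw [hq, eval_qS]
    apply mul_nonneg (by positivity)
    apply Finset.prod_nonneg
    intro k _
    have := ha1 k
    have := ha0 k
    nlinarith
  have htop : ∀ j, |Qf e q (t j)| ≤ Qf e q 1 := by
    intro j
    have h1 := hb (hnode j) hone (ht1 j).le
    simp only at h1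
    rwa [abs_of_nonneg hQ1] at h1
  have hmono : ∀ j k, j < k → |Qf e q (t j)| ≤ |Qf e q (t k)| := by
    intro j k hjk
    exact hb (hnode j) (hnode k) ((ht j).2.2.trans ((ht k).2.1 j hjk))
  have hpos : 0 < Qf e q 1 :=
    lt_of_lt_of_le (abs_pos.2 (hne ⟨0, hm⟩)) (htop _)
  refine ⟨|Qf e q (t ⟨0, hm⟩)| / Qf e q 1, t, div_pos (abs_pos.2 (hne _)) hpos, ?_⟩
  apply cls_of_argmax hq ha1 ht hmax hne hmono _ htop
  intro j
  rw [div_mul_cancel₀ _ hpos.ne']
  rcases Nat.eq_zero_or_pos (j : ℕ) with h | h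
  · have : j = ⟨0, hm⟩ := Fin.ext h
    rw [this]
  · exact hmono _ _ (by rw [Fin.lt_def]; exact h)

/-- **Answer to Q2: yes.** For every `n`, every symmetric monic `Q` with simple zeros in `[-1,1]`
satisfying (b) has property (D). -/
theorem result : ∀ (n : ℕ) (x : Fin n → ℝ), Admissible x → CondB x → PropD x := by
  intro n x hx hb
  obtain ⟨e, m, a, he, hamono, ha0, ha1, hQ, hQr⟩ := exists_half x hx
  have hfun : Qreal x = Qf e (qS (fun k => a k ^ 2)) := by
    funext t
    rw [hQr, Qf_qS_eq]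
  have hnorm : ∀ u y : ℝ, ‖Q x ⟨u, y⟩‖ ^ 2 = Phi e (fun k => a k ^ 2) |u| |y| := by
    intro u y
    rw [← Complex.normSq_eq_norm_sq, hQ, map_mul, map_pow, map_prod]
    unfold Phi
    congr 1
    · rw [Complex.normSq_apply, sq_abs, sq_abs]
      congr 1
      ring
    · apply Finset.prod_congr rfl
      intro k _
      rw [normSq_sub_real]
      unfold Nk
      rw [sq_abs, sq_abs]
  intro u hu1 hu2 y
  have hu : |u| ≤ 1 := abs_le.2 ⟨hu1, hu2⟩
  have key : Phi e (fun k => a k ^ 2) |u| |y| ≤ Phi e (fun k => a k ^ 2) 1 |y| := by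
    rcases Nat.eq_zero_or_pos m with hm | hm
    · subst hm
      unfold Phi
      simp only [Finset.univ_eq_empty, Finset.prod_empty, mul_one]
      apply pow_le_pow_left₀ (by positivity)
      have := abs_nonneg u
      nlinarith
    · unfold CondB nodes at hb
      rw [hfun] at hb
      obtain ⟨μ, t, hμ, hcls⟩ := exists_cls hm hamono ha0 ha1 hb
      exact Phi_le_of_cls he hm hμ hcls (abs_nonneg u) hu (abs_nonneg y)
  have h1 := hnorm u y
  have h2 := hnorm 1 y
  rw [abs_one] at h2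
  rw [← h1, ← h2] at key
  exact le_of_sq_le_sq' key (norm_nonneg _)

end Pool.Agent.Results.MP_1c7d4c_an.MonotonePeaksDominated
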